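import Mathlib
import Pool.Agent.H24.Opn.EulerFive

/-!
# The exponent of the special prime of an odd perfect number is 1 if `q ≥ 2 n ^ (1 / 3)`

Let `N = q ^ k n ^ 2` be an odd perfect number in Eulerian form.  Known: `n < q` implies `k = 1`, and from
`q ^ k < 2 n ^ 2` one gets that `k > 1` implies `q ^ 5 < 2 n ^ 2`.  Here: `k > 1` implies
`q ^ 6 < 48 n ^ 2`, so that `k = 1` as soon as `q ≥ 2 n ^ (1 / 3)`.

Proof.  For `k ≥ 9` this is clear.  Let `k = 5`, `σ(n ^ 2) = q ^ 5 s`, so `s σ(q ^ 5) = 2 n ^ 2`; we show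
that `s ≥ q / 24`.  For a component `p ^ f` of `n ^ 2` write `σ(p ^ f) = q ^ c u` with `q ∤ u`,
`v = v_p(s)` and `w = f - v = v_p(σ(q ^ 5))`.  The product of the `u` is `s`, the product of the `p ^ v`
is `s`, and the sum of the `c` is `5`.  If `c ≥ 1`, then `q ^ c u (p - 1) = -1` and `q ^ 6 = 1` modulo
`p ^ w`, hence `X ^ 6 = 1` modulo `p ^ w` for `X = u (p - 1)`.  Since `p` divides (for `p > 3`) only one
of the factors `X - 1`, `X + 1`, `X ^ 2 + X + 1`, `X ^ 2 - X + 1` of `X ^ 6 - 1`, one has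
`p ^ w ≤ (u p) ^ 2`, and `p ∣ u ^ 6 - 1`, `u ≠ 1` give `p ≤ (u + 1) ^ 2` if `w ≥ 2`.  As `f` is even,
`v ≥ 1` if `w` is `1` or `3`; it follows in all cases that `q ^ c ≤ 24 (p ^ v) ^ 2 u ^ 3`
(`Pool.Agent.H24.Opn.EulerFive.local_le`).  The product of these at most five inequalities is
`q ^ 5 ≤ (24 s) ^ 5`.
-/

namespace Pool.Agent.Results.MP_4eb2ef_nt.CubeRoot

/-- **Main theorem.** Let `N = q ^ k n ^ 2` be an odd perfect number in Eulerian form.  If
`q ^ 6 ≥ 48 n ^ 2`, then `k = 1`. -/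
theorem result : ∀ N q k n : ℕ, Odd N → Nat.Perfect N → q.Prime → q % 4 = 1 → k % 4 = 1 →
    Nat.Coprime q n → N = q ^ k * n ^ 2 → 48 * n ^ 2 ≤ q ^ 6 → k = 1 := by
  intro N q k n hodd hperf hq _ hk hqn hN h
  by_contra hne
  have := Pool.Agent.H24.Opn.EulerFive.main hodd hperf hq hk hqn hN (by omega)
  omega

end Pool.Agent.Results.MP_4eb2ef_nt.CubeRoot
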